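import Pool.Agent.DQ2.Stmts

/-!
Squad DQ2 (MP_366d03_ag), row PSD: a good root moves (pseudo-division in one parameter).
-/

set_option autoImplicit false

open MvPolynomial

namespace Pool.Agent.DQ2.H40

/-- pseudo-division by `A`, with respect to the coefficient of degree `m` -/
theorem pdiv {R : Type} [CommRing R] (A : Polynomial R) (m : ℕ) (hA : ∀ j, m < j → A.coeff j = 0)
    (n : ℕ) : ∀ B : Polynomial R, (∀ j, m + n ≤ j → B.coeff j = 0) →
    ∃ (t : ℕ) (Q R' : Polynomial R), Polynomial.C (A.coeff m ^ t) * B = A * Q + R' ∧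
      ∀ j, m ≤ j → R'.coeff j = 0 := by
  induction n with
  | zero =>
    intro B hB
    exact ⟨0, 0, B, by simp, fun j hj => hB j (by omega)⟩
  | succ n ih =>
    intro B hB
    obtain ⟨t, Q, R', h1, h2⟩ := ih
      (Polynomial.C (A.coeff m) * B - A * (Polynomial.C (B.coeff (m + n)) * Polynomial.X ^ n)) (by
        intro j hj
        have e1 : (A * (Polynomial.C (B.coeff (m + n)) * Polynomial.X ^ n)).coeff j =
            A.coeff (j - n) * B.coeff (m + n) := by
          have : j = (j - n) + n := by omega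
          conv_lhs => rw [this]
          rw [← mul_assoc, Polynomial.coeff_mul_X_pow, Polynomial.coeff_mul_C]
        rw [Polynomial.coeff_sub, Polynomial.coeff_C_mul, e1]
        rcases Nat.lt_or_ge (m + n) j with h | h
        · rw [hB j (by omega), hA (j - n) (by omega)]
          ring
        · have : j = m + n := by omega
          subst this
          rw [Nat.add_sub_cancel]
          ring)
    refine ⟨t + 1, Q + Polynomial.C (A.coeff m ^ t) *
      (Polynomial.C (B.coeff (m + n)) * Polynomial.X ^ n), R', ?_, h2⟩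
    have h3 : Polynomial.C (A.coeff m ^ (t + 1)) * B = Polynomial.C (A.coeff m ^ t) *
        (Polynomial.C (A.coeff m) * B -
          A * (Polynomial.C (B.coeff (m + n)) * Polynomial.X ^ n)) +
        Polynomial.C (A.coeff m ^ t) *
          (A * (Polynomial.C (B.coeff (m + n)) * Polynomial.X ^ n)) := by
      rw [pow_succ, Polynomial.C_mul]
      ring
    rw [h3, h1]
    ring

/-- a product of `card` divisors of `b` divides `b ^ card` -/
theorem prod_dvd {R : Type} [CommRing R] (b : R) (S : Multiset R) (h : ∀ x ∈ S, x ∣ b) :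
    S.prod ∣ b ^ S.card := by
  induction S using Multiset.induction_on with
  | empty => simp
  | cons x S ih =>
    rw [Multiset.prod_cons, Multiset.card_cons, pow_succ, mul_comm]
    exact mul_dvd_mul (ih (fun y hy => h y (Multiset.mem_cons_of_mem hy)))
      (h x (Multiset.mem_cons_self x S))

/-- if every root of `a` is a root of `b` then `a` divides `b ^ m`, `m = deg a` -/
theorem dvd_pow_of_roots {E : Type} [Field E] [IsAlgClosed E] (a b : Polynomial E) (ha : a ≠ 0)
    (h : ∀ s, a.eval s = 0 → b.eval s = 0) : a ∣ b ^ a.natDegree := by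
  have hs : a.Splits := IsAlgClosed.splits a
  have hc : a.roots.card = a.natDegree := hs.natDegree_eq_card_roots.symm
  have hp : a = Polynomial.C a.leadingCoeff * (a.roots.map (fun x => Polynomial.X - Polynomial.C x)).prod :=
    hs.eq_prod_roots
  have h1 : (a.roots.map (fun x => Polynomial.X - Polynomial.C x)).prod ∣
      b ^ (a.roots.map (fun x => Polynomial.X - Polynomial.C x)).card := by
    apply prod_dvd
    intro x hx
    rw [Multiset.mem_map] at hx
    obtain ⟨s, hs1, rfl⟩ := hx
    rw [Polynomial.dvd_iff_isRoot]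
    exact h s (Polynomial.isRoot_of_mem_roots hs1)
  rw [Multiset.card_map, hc] at h1
  have hu : IsUnit (Polynomial.C a.leadingCoeff) :=
    Polynomial.isUnit_C.mpr (isUnit_iff_ne_zero.mpr (Polynomial.leadingCoeff_ne_zero.mpr ha))
  have h2 := hu.mul_left_dvd.mpr h1
  rw [← hp] at h2
  exact h2

/-- values of polynomials in two groups of variables -/
theorem ev2_map {E : Type} [Field E] {N : ℕ} (A : Polynomial (MvPolynomial (Fin N) E))
    (y : Fin N → E) (s : E) :
    ev2 A y s = (A.map (eval y : MvPolynomial (Fin N) E →+* E)).eval s := by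
  rw [ev2, Polynomial.eval₂_eq_eval_map]

/-- the first case -/
theorem case1 (h1 : NUL) (E : Type) [Field E] [IsAlgClosed E] (N : ℕ)
    (F g : MvPolynomial (Fin N) E) (A B : Polynomial (MvPolynomial (Fin N) E)) (m : ℕ)
    (y0 : Fin N → E) (s0 : E) (hF : Irreducible F) (hg : ∃ y, eval y F = 0 ∧ eval y g ≠ 0)
    (hy0 : eval y0 F = 0) (hA : ∀ j, m < j → A.coeff j = 0) (hm : eval y0 (A.coeff m) ≠ 0)
    (hA0 : ev2 A y0 s0 = 0) (hB0 : ev2 B y0 s0 ≠ 0) :
    ∃ (y : Fin N → E) (s : E), eval y F = 0 ∧ eval y g ≠ 0 ∧ ev2 A y s = 0 ∧ ev2 B y s ≠ 0 := by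
  obtain ⟨t, Q, R', e1, e2⟩ := pdiv A m hA ((B ^ m).natDegree + 1) (B ^ m) (fun j hj =>
    Polynomial.coeff_eq_zero_of_natDegree_lt (by omega))
  -- some coefficient of R' does not vanish at y0
  have hR : ∃ j, eval y0 (R'.coeff j) ≠ 0 := by
    by_contra hcon
    push Not at hcon
    have hR0 : R'.map (eval y0 : MvPolynomial (Fin N) E →+* E) = 0 := by
      ext j
      rw [Polynomial.coeff_map, hcon j, Polynomial.coeff_zero]
    have e3 := congrArg (fun P : Polynomial (MvPolynomial (Fin N) E) =>
      (P.map (eval y0 : MvPolynomial (Fin N) E →+* E)).eval s0) e1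
    simp only [Polynomial.map_mul, Polynomial.map_add, Polynomial.map_pow, Polynomial.map_C,
      Polynomial.eval_mul, Polynomial.eval_pow, Polynomial.eval_C, hR0,
      ← ev2_map, hA0, zero_mul, add_zero] at e3
    rw [RingHom.map_pow] at e3
    exact mul_ne_zero (pow_ne_zero t hm) (pow_ne_zero m hB0) e3
  obtain ⟨j, hj⟩ := hR
  obtain ⟨y, hy1, hy2, hy3⟩ := (h1 E N F hF).1 g (A.coeff m * R'.coeff j) hg
    ⟨y0, hy0, by rw [RingHom.map_mul]; exact mul_ne_zero hm hj⟩
  rw [RingHom.map_mul] at hy3
  have hc : eval y (A.coeff m) ≠ 0 := left_ne_zero_of_mul hy3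
  have hr : eval y (R'.coeff j) ≠ 0 := right_ne_zero_of_mul hy3
  by_contra hcon
  push Not at hcon
  set a : Polynomial E := A.map (eval y : MvPolynomial (Fin N) E →+* E) with ha
  set b : Polynomial E := B.map (eval y : MvPolynomial (Fin N) E →+* E) with hb
  set r : Polynomial E := R'.map (eval y : MvPolynomial (Fin N) E →+* E) with hrr
  have ham : a.coeff m ≠ 0 := by rw [ha, Polynomial.coeff_map]; exact hc
  have ha0 : a ≠ 0 := by
    intro h
    rw [h, Polynomial.coeff_zero] at ham
    exact ham rfl
  have had : a.natDegree = m := by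
    apply le_antisymm
    · rw [Polynomial.natDegree_le_iff_coeff_eq_zero]
      intro k hk
      rw [ha, Polynomial.coeff_map, hA k hk, RingHom.map_zero]
    · exact Polynomial.le_natDegree_of_ne_zero ham
  have h4 : a ∣ b ^ m := by
    rw [← had]
    apply dvd_pow_of_roots a b ha0
    intro s hs
    have h5 := hcon y s hy1 hy2 (by rw [ev2_map]; exact hs)
    rw [ev2_map] at h5
    exact h5
  have h6 : Polynomial.C (eval y (A.coeff m ^ t)) * b ^ m =
      a * Q.map (eval y : MvPolynomial (Fin N) E →+* E) + r := by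
    have := congrArg (Polynomial.map (eval y : MvPolynomial (Fin N) E →+* E)) e1
    rw [Polynomial.map_mul, Polynomial.map_add, Polynomial.map_mul, Polynomial.map_pow,
      Polynomial.map_C] at this
    exact this
  have h7 : a ∣ r := by
    have h8 : r = Polynomial.C (eval y (A.coeff m ^ t)) * b ^ m -
        a * Q.map (eval y : MvPolynomial (Fin N) E →+* E) := by rw [h6]; ring
    rw [h8]
    exact dvd_sub (Dvd.dvd.mul_left h4 _) (dvd_mul_right _ _)
  have hr0 : r ≠ 0 := by
    intro h
    apply hr
    have : r.coeff j = 0 := by rw [h, Polynomial.coeff_zero]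
    rw [hrr, Polynomial.coeff_map] at this
    exact this
  have h9 := Polynomial.natDegree_le_of_dvd h7 hr0
  rw [had] at h9
  have h10 : r.coeff r.natDegree = 0 := by
    rw [hrr, Polynomial.coeff_map, e2 _ h9, RingHom.map_zero]
  exact hr0 (Polynomial.leadingCoeff_eq_zero.mp h10)

/-- the value of the shifted polynomial -/
theorem ev2_shift {E : Type} [Field E] {N : ℕ} (A : Polynomial (MvPolynomial (Fin N) E))
    (y : Fin N → E) (s1 u : E) :
    ev2 (A.comp (Polynomial.X + Polynomial.C (C s1))) y u = ev2 A y (u + s1) := by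
  rw [ev2_map, ev2_map, Polynomial.map_comp, Polynomial.eval_comp, Polynomial.map_add,
    Polynomial.map_X, Polynomial.map_C, eval_C, Polynomial.eval_add, Polynomial.eval_X,
    Polynomial.eval_C]

/-- the value of the reversed polynomial -/
theorem ev2_reverse {E : Type} [Field E] {N : ℕ} (A : Polynomial (MvPolynomial (Fin N) E))
    (y : Fin N → E) (x : E) (hx : x ≠ 0) :
    ev2 A.reverse y x⁻¹ * x ^ A.natDegree = ev2 A y x := by
  let _ : Invertible x := invertibleOfNonzero hx
  have := Polynomial.eval₂_reverse_mul_pow (eval y : MvPolynomial (Fin N) E →+* E) x A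
  rw [invOf_eq_inv] at this
  exact this

/-- row PSD -/
theorem psd (h1 : NUL) : PSD := by
  intro E _ _ N F g A B y0 s0 s1 hF hg hy0 hA0 hB0 hA1
  have hs : s0 - s1 ≠ 0 := by
    intro h
    rw [sub_eq_zero] at h
    rw [h] at hA0
    exact hA1 hA0
  set A1 := A.comp (Polynomial.X + Polynomial.C (C s1)) with hA1d
  set B1 := B.comp (Polynomial.X + Polynomial.C (C s1)) with hB1d
  have eA : ∀ y u, ev2 A1 y u = ev2 A y (u + s1) := fun y u => ev2_shift A y s1 u
  have eB : ∀ y u, ev2 B1 y u = ev2 B y (u + s1) := fun y u => ev2_shift B y s1 u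
  obtain ⟨y, u, c1, c2, c3, c4⟩ := case1 h1 E N F g A1.reverse (Polynomial.X * B1.reverse)
    A1.natDegree y0 (s0 - s1)⁻¹ hF hg hy0
    (by
      intro j hj
      exact Polynomial.coeff_eq_zero_of_natDegree_lt
        (lt_of_le_of_lt (Polynomial.reverse_natDegree_le A1) hj))
    (by
      rw [Polynomial.coeff_reverse, Polynomial.revAt_le le_rfl, Nat.sub_self]
      have h := eA y0 0
      rw [zero_add, ev2_map, ← Polynomial.coeff_zero_eq_eval_zero, Polynomial.coeff_map] at h
      rw [h]
      exact hA1)
    (by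
      have h := ev2_reverse A1 y0 (s0 - s1) hs
      rw [eA, sub_add_cancel, hA0] at h
      exact (mul_eq_zero.mp h).resolve_right (pow_ne_zero _ hs))
    (by
      have h := ev2_reverse B1 y0 (s0 - s1) hs
      rw [eB, sub_add_cancel] at h
      rw [ev2_map, Polynomial.map_mul, Polynomial.map_X, Polynomial.eval_mul, Polynomial.eval_X,
        ← ev2_map]
      apply mul_ne_zero (inv_ne_zero hs)
      intro h0
      rw [h0, zero_mul] at h
      exact hB0 h.symm)
  rw [ev2_map, Polynomial.map_mul, Polynomial.map_X, Polynomial.eval_mul, Polynomial.eval_X,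
    ← ev2_map] at c4
  have hu : u ≠ 0 := left_ne_zero_of_mul c4
  have hb : ev2 B1.reverse y u ≠ 0 := right_ne_zero_of_mul c4
  refine ⟨y, u⁻¹ + s1, c1, c2, ?_, ?_⟩
  · have h := ev2_reverse A1 y u⁻¹ (inv_ne_zero hu)
    rw [inv_inv, c3, zero_mul, eA] at h
    exact h.symm
  · have h := ev2_reverse B1 y u⁻¹ (inv_ne_zero hu)
    rw [inv_inv, eB] at h
    rw [← h]
    exact mul_ne_zero hb (pow_ne_zero _ (inv_ne_zero hu))

end Pool.Agent.DQ2.H40
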